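import Pool.Agent.H14.DtN.Asm10
import Pool.Agent.H14.DtN.Bridge

/-!
# Karpukhin's Dirichlet-to-Neumann operator on differential forms is pseudo-differential

Full answer (yes) to Q1 of MP_8f4a7b_an. The definitions used in the statement are in
`Pool/Agent/H14/DtN/Form.lean` and `Pool/Agent/H14/DtN/Karp.lean`.
-/

open scoped Manifold ContDiff
open DtN Karp

/-- Let `Ω` be a compact Riemannian manifold with boundary of dimension `d + 1`, `S` a closed
manifold of dimension `d`, `f : S → Ω` an injective immersion onto the boundary of `Ω`, `ν` the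
outward unit normal along `f`, and let `T` be Karpukhin's Dirichlet-to-Neumann operator on
`(k + 1)`-forms. Then `T` is a pseudo-differential operator on `S`. -/
theorem Pool.Agent.Results.MP_8f4a7b_an.KarpukhinPsiDO.result
    {d k : ℕ} {Ω : Type*} [TopologicalSpace Ω] [ChartedSpace (EuclideanHalfSpace (d + 1)) Ω]
    [IsManifold (𝓡∂ (d + 1)) ∞ Ω] [CompactSpace Ω] [T2Space Ω]
    {S : Type*} [TopologicalSpace S] [ChartedSpace (EuclideanSpace ℝ (Fin d)) S]
    [IsManifold (𝓡 d) ∞ S] [CompactSpace S] [T2Space S]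
    (g : Metric (𝓡∂ (d + 1)) Ω) (f : S → Ω) (hf : IsBdry (𝓡∂ (d + 1)) (𝓡 d) f)
    (ν : S → EuclideanSpace ℝ (Fin (d + 1)))
    (hν : Karp.IsUnitNormal (stdB (d + 1)) (𝓡 d) g f ν)
    (T : (S → Alt (EuclideanSpace ℝ (Fin d)) (k + 1)) →
      (S → Alt (EuclideanSpace ℝ (Fin d)) (k + 1)))
    (hT : Karp.IsDtN (stdB (d + 1)) (𝓡 d) g f ν T) : Karp.IsPsiDO T :=
  (isPsiDO_std T).mpr (main_theorem g hf.1 hf.2.1 hf.2.2.1 hf.2.2.2
    ((isUnitNormal_std g f ν).mp hν) ((isDtN_std g f ν T).mp hT))
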